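import Pool.Agent.C2.Stmts

/-!
# Squad C2M, row SAL (helper19): torus normalisation
-/

set_option autoImplicit false

namespace Pool.Agent.C2.H19

open Pool.Agent.C2 Finset

section

variable {F : Type} [Field F] [Fintype F] [DecidableEq F] {V E : Type} [Fintype V]
  [DecidableEq V] [Fintype E] [DecidableEq E] (s t : E → V)

omit [Fintype F] [DecidableEq F] [Fintype V] [DecidableEq E] in
theorem lap_scale (b : E → F) (d : V → F) (k u : V → F) (x : V) :
    Lap s t (fun e => b e * (k (s e) * k (t e))) (fun x => d x * (k x * k x)) u x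
      = k x * Lap s t b d (fun y => k y * u y) x := by
  unfold Lap
  rw [mul_add, Finset.mul_sum]
  congr 1
  · ring
  · refine Finset.sum_congr rfl fun e _ => ?_
    by_cases h1 : s e = x
    · by_cases h2 : t e = x
      · simp only [h1, h2, if_true]
        ring
      · simp only [h1, h2, if_true, if_false]
        ring
    · by_cases h2 : t e = x
      · simp only [h1, h2, if_true, if_false]
        ring
      · simp only [h1, h2, if_false]
        ring

omit [Fintype F] [DecidableEq F] [Fintype V] [DecidableEq E] in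
theorem kerL_scale (b : E → F) (d : V → F) (k : V → F) (hk : ∀ x, k x ≠ 0) :
    kerL s t (fun e => b e * (k (s e) * k (t e))) (fun x => d x * (k x * k x))
      = kerL s t b d := by
  unfold kerL
  refine Nat.card_congr (Equiv.subtypeEquiv
    (Equiv.piCongrRight fun x => Equiv.mulLeft₀ (k x) (hk x)) ?_)
  intro u
  refine forall_congr' fun x => ?_
  rw [lap_scale]
  rw [mul_eq_zero, or_iff_right (hk x)]
  rfl

omit [Fintype F] [DecidableEq F] [Fintype V] [DecidableEq E] in
theorem lap_one_iff (b : E → F) (d : V → F) (k : V → F) (hk : ∀ x, k x ≠ 0) :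
    (∀ x, Lap s t (fun e => b e * (k (s e) * k (t e))) (fun x => d x * (k x * k x))
      (fun _ => 1) x = 0) ↔ ∀ x, Lap s t b d k x = 0 := by
  refine forall_congr' fun x => ?_
  rw [lap_scale, mul_eq_zero, or_iff_right (hk x)]
  simp only [mul_one]

omit [Fintype V] [DecidableEq V] [DecidableEq E] in
theorem wt_scale (b : E → F) (k : V → F) (hk : ∀ x, k x ≠ 0) :
    wt (fun e => b e * (k (s e) * k (t e))) = wt b := by
  unfold wt
  refine Finset.prod_congr rfl fun e _ => ?_
  have h : (b e * (k (s e) * k (t e)) = 0) ↔ b e = 0 := by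
    rw [mul_eq_zero, or_iff_left (mul_ne_zero (hk _) (hk _))]
  by_cases h0 : b e = 0
  · rw [if_pos h0, if_pos (h.2 h0)]
  · rw [if_neg h0, if_neg (fun h1 => h0 (h.1 h1))]

/-- the diagonal of the Laplacian -/
def dg (b : E → F) (x : V) : F :=
  -∑ e, b e * ((if s e = x then 1 else 0) + (if t e = x then 1 else 0))

omit [Fintype F] [DecidableEq F] [Fintype V] [DecidableEq E] in
theorem lap_one_iff_dg (b : E → F) (d : V → F) :
    (∀ x, Lap s t b d (fun _ => 1) x = 0) ↔ d = dg s t b := by
  constructor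
  · intro h
    funext x
    have h1 := h x
    unfold Lap at h1
    unfold dg
    rw [mul_one] at h1
    exact eq_neg_of_add_eq_zero_left h1
  · rintro rfl x
    unfold Lap dg
    rw [mul_one, neg_add_cancel]

omit [Fintype F] [DecidableEq F] [Fintype V] [DecidableEq E] in
theorem lap_dg (b : E → F) (u : V → F) (x : V) :
    Lap s t b (dg s t b) u x = ∑ e, b e * ((if s e = x then u (t e) - u (s e) else 0) +
      (if t e = x then u (s e) - u (t e) else 0)) := by
  unfold Lap dg
  rw [neg_mul, Finset.sum_mul, ← Finset.sum_neg_distrib, ← Finset.sum_add_distrib]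
  refine Finset.sum_congr rfl fun e _ => ?_
  by_cases h1 : s e = x
  · by_cases h2 : t e = x
    · simp only [h1, h2, if_true]
      ring
    · simp only [h1, h2, if_true, if_false]
      ring
  · by_cases h2 : t e = x
    · simp only [h1, h2, if_true, if_false]
      ring
    · simp only [h1, h2, if_false]
      ring

omit [Fintype F] [DecidableEq F] [Fintype V] [DecidableEq E] in
theorem kerL_dg (b : E → F) : kerL s t b (dg s t b) = kerG s t b := by
  unfold kerL kerG
  refine Nat.card_congr (Equiv.subtypeEquivRight fun u => ?_)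
  refine forall_congr' fun x => ?_
  rw [lap_dg]

theorem inner_one : (∑ b : E → F, ∑ d : V → F, wt b * (kerL s t b d : ℤ) ^ 2 *
      (if (∀ x, Lap s t b d (fun _ => 1) x = 0) then (1 : ℤ) else 0))
    = ∑ b : E → F, wt b * (kerG s t b : ℤ) ^ 2 := by
  refine Finset.sum_congr rfl fun b _ => ?_
  rw [Finset.sum_eq_single (dg s t b)]
  · rw [if_pos ((lap_one_iff_dg s t b _).2 rfl), mul_one, kerL_dg]
  · intro d _ hd
    rw [if_neg (fun h => hd ((lap_one_iff_dg s t b d).1 h)), mul_zero]
  · intro h
    exact absurd (Finset.mem_univ _) h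

theorem inner_k (k : V → F) (hk : ∀ x, k x ≠ 0) :
    (∑ b : E → F, ∑ d : V → F, wt b * (kerL s t b d : ℤ) ^ 2 *
      (if (∀ x, Lap s t b d k x = 0) then (1 : ℤ) else 0))
    = ∑ b : E → F, wt b * (kerG s t b : ℤ) ^ 2 := by
  rw [← inner_one s t]
  rw [← Equiv.sum_comp (Equiv.piCongrRight fun e : E =>
    Equiv.mulRight₀ (k (s e) * k (t e)) (mul_ne_zero (hk _) (hk _)))
    (fun b : E → F => ∑ d : V → F, wt b * (kerL s t b d : ℤ) ^ 2 *
      (if (∀ x, Lap s t b d (fun _ => 1) x = 0) then (1 : ℤ) else 0))]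
  refine Finset.sum_congr rfl fun b _ => ?_
  have hb : (Equiv.piCongrRight fun e : E =>
    Equiv.mulRight₀ (k (s e) * k (t e)) (mul_ne_zero (hk _) (hk _))) b
      = fun e => b e * (k (s e) * k (t e)) := rfl
  rw [hb]
  rw [← Equiv.sum_comp (Equiv.piCongrRight fun x : V =>
    Equiv.mulRight₀ (k x * k x) (mul_ne_zero (hk _) (hk _)))
    (fun d : V → F => wt (fun e => b e * (k (s e) * k (t e))) *
      (kerL s t (fun e => b e * (k (s e) * k (t e))) d : ℤ) ^ 2 *
      (if (∀ x, Lap s t (fun e => b e * (k (s e) * k (t e))) d (fun _ => 1) x = 0)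
        then (1 : ℤ) else 0))]
  refine Finset.sum_congr rfl fun d _ => ?_
  have hd : (Equiv.piCongrRight fun x : V =>
    Equiv.mulRight₀ (k x * k x) (mul_ne_zero (hk _) (hk _))) d
      = fun x => d x * (k x * k x) := rfl
  rw [hd, wt_scale s t b k hk, kerL_scale s t b d k hk]
  congr 1
  by_cases h : ∀ x, Lap s t b d k x = 0
  · rw [if_pos h, if_pos ((lap_one_iff s t b d k hk).2 h)]
  · rw [if_neg h, if_neg (fun h1 => h ((lap_one_iff s t b d k hk).1 h1))]


theorem card_units : ((univ.filter fun k : V → F => ∀ x, k x ≠ 0).card : ℤ)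
    = ((Fintype.card F : ℤ) - 1) ^ (Fintype.card V) := by
  have h1 : (univ.filter fun k : V → F => ∀ x, k x ≠ 0)
      = Fintype.piFinset fun _ : V => (univ.filter fun y : F => y ≠ 0) := by
    ext k
    simp
  rw [h1, Fintype.card_piFinset, Finset.prod_const, Finset.card_univ]
  have h2 : (univ.filter fun y : F => y ≠ 0) = univ.erase 0 := by
    ext y
    simp
  rw [h2, Finset.card_erase_of_mem (Finset.mem_univ _), Finset.card_univ]
  have h3 : 1 ≤ Fintype.card F := Fintype.card_pos
  rw [Nat.cast_pow, Nat.cast_sub h3, Nat.cast_one]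

end

/-- **SAL** -/
theorem sal : SalStmt := by
  intro F _ _ _ V E _ _ _ _ s t _
  have hc : ∀ (b : E → F) (d : V → F),
      (Nat.card {k : V → F // (∀ x, Lap s t b d k x = 0) ∧ (∀ x, k x ≠ 0)} : ℤ)
        = ∑ k ∈ univ.filter (fun k : V → F => ∀ x, k x ≠ 0),
          if (∀ x, Lap s t b d k x = 0) then (1 : ℤ) else 0 := by
    intro b d
    rw [Nat.card_eq_fintype_card, Fintype.card_subtype, Finset.sum_boole]
    congr 2
    ext k
    simp only [Finset.mem_filter, Finset.mem_univ, true_and]
    exact and_comm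
  unfold SA
  have h1 : ∀ (b : E → F) (d : V → F), wt b * (kerL s t b d : ℤ) ^ 2 *
      (Nat.card {k : V → F // (∀ x, Lap s t b d k x = 0) ∧ (∀ x, k x ≠ 0)} : ℤ)
        = ∑ k ∈ univ.filter (fun k : V → F => ∀ x, k x ≠ 0), wt b * (kerL s t b d : ℤ) ^ 2 *
          (if (∀ x, Lap s t b d k x = 0) then (1 : ℤ) else 0) := by
    intro b d
    rw [hc, Finset.mul_sum]
  rw [Finset.sum_congr rfl fun b _ => Finset.sum_congr rfl fun d _ => h1 b d]
  have h2 : (∑ b : E → F, ∑ d : V → F, ∑ k ∈ univ.filter (fun k : V → F => ∀ x, k x ≠ 0),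
      wt b * (kerL s t b d : ℤ) ^ 2 * (if (∀ x, Lap s t b d k x = 0) then (1 : ℤ) else 0))
      = ∑ k ∈ univ.filter (fun k : V → F => ∀ x, k x ≠ 0), ∑ b : E → F, ∑ d : V → F,
      wt b * (kerL s t b d : ℤ) ^ 2 * (if (∀ x, Lap s t b d k x = 0) then (1 : ℤ) else 0) := by
    rw [Finset.sum_congr rfl fun b _ => Finset.sum_comm]
    rw [Finset.sum_comm]
  rw [h2]
  rw [Finset.sum_congr rfl fun k hk => inner_k s t k (Finset.mem_filter.1 hk).2]
  rw [Finset.sum_const, nsmul_eq_mul, card_units]

end Pool.Agent.C2.H19
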